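import Mathlib
import Pool.Agent.H80.MixedDetDefs
import Pool.Agent.H80.MixedDet

set_option autoImplicit false

namespace Pool.Agent.Results.MP_378045_ag.NotMixedDet

open Pool.Agent.H80.MixedDet
open scoped ComplexOrder

theorem result : ∃ (n l : ℕ) (f : MvPolynomial (Fin l) ℝ), RealStable f ∧ f.IsHomogeneous n ∧
    (∀ d, 0 ≤ MvPolynomial.coeff d f) ∧
    ∀ (m : ℕ) (A : Fin m → Fin l → Matrix (Fin n) (Fin n) ℂ), (∀ j k, (A j k).PosSemidef) →
      MvPolynomial.map (algebraMap ℝ ℂ) f ≠ eta (fun j => pencil (A j)) :=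
  ⟨2, 13, f, f_stable, f_homog, f_coeff_nonneg, not_eta⟩

end Pool.Agent.Results.MP_378045_ag.NotMixedDet
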